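import Mathlib

/-!
Every point `p` of the convex hull of a closed set `X` with `d(p) > λ` is `λ`-reconstructible.
-/

set_option autoImplicit false
open Metric Set Filter Topology

namespace Pool.Agent.Results.MP_15b8d6_gt.LambdaReconstructible

/-- the points of `X` closest to `a` -/
def nearest {n : ℕ} (X : Set (EuclideanSpace ℝ (Fin n))) (a : EuclideanSpace ℝ (Fin n)) :
    Set (EuclideanSpace ℝ (Fin n)) := {x | x ∈ X ∧ dist a x = infDist a X}

/-- the `l`-medial axis -/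
def medialAxis {n : ℕ} (X : Set (EuclideanSpace ℝ (Fin n))) (l : ℝ) :
    Set (EuclideanSpace ℝ (Fin n)) :=
  {a | (nearest X a).Nontrivial ∧ ∀ c, ¬ nearest X a ⊆ closedBall c l}

/-- `l`-reconstructible points -/
def Reconstructible {n : ℕ} (X : Set (EuclideanSpace ℝ (Fin n))) (l : ℝ)
    (p : EuclideanSpace ℝ (Fin n)) : Prop :=
  ∃ a ∈ medialAxis X l, p ∈ ball a (infDist a X)

variable {n : ℕ} {X : Set (EuclideanSpace ℝ (Fin n))} {p : EuclideanSpace ℝ (Fin n)}

/-- upper bound of `φ(a) = d(a)^2 - |a - p|^2` -/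
theorem phi_bdd (hp : p ∈ convexHull ℝ X) :
    ∃ B : ℝ, ∀ a, infDist a X ^ 2 - ‖a - p‖ ^ 2 ≤ B := by
  rw [convexHull_eq] at hp
  obtain ⟨ι, t, w, z, hw, hw1, hz, hc⟩ := hp
  rw [Finset.centerMass_eq_of_sum_1 _ _ hw1] at hc
  refine ⟨∑ i ∈ t, w i * ‖z i - p‖ ^ 2, fun a => ?_⟩
  have h1 : ∀ i ∈ t, w i * (infDist a X ^ 2 - ‖a - p‖ ^ 2) ≤
      w i * ‖z i - p‖ ^ 2 - 2 * (w i * inner ℝ (a - p) (z i - p)) := by
    intro i hi
    have h2 : infDist a X ≤ dist a (z i) := infDist_le_dist_of_mem (hz i hi)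
    have h3 : infDist a X ^ 2 ≤ dist a (z i) ^ 2 := by
      have := infDist_nonneg (x := a) (s := X)
      gcongr
    have h4 : dist a (z i) ^ 2 = ‖a - p‖ ^ 2 - 2 * inner ℝ (a - p) (z i - p) +
        ‖z i - p‖ ^ 2 := by
      rw [dist_eq_norm, ← norm_sub_sq_real]
      congr 2
      abel
    have h5 : infDist a X ^ 2 - ‖a - p‖ ^ 2 ≤ ‖z i - p‖ ^ 2 - 2 * inner ℝ (a - p) (z i - p) := by
      linarith
    calc w i * (infDist a X ^ 2 - ‖a - p‖ ^ 2) ≤
        w i * (‖z i - p‖ ^ 2 - 2 * inner ℝ (a - p) (z i - p)) :=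
          mul_le_mul_of_nonneg_left h5 (hw i hi)
      _ = _ := by ring
  have h2 := Finset.sum_le_sum h1
  rw [← Finset.sum_mul, hw1, one_mul, Finset.sum_sub_distrib, ← Finset.mul_sum] at h2
  have h3 : ∑ i ∈ t, w i * inner ℝ (a - p) (z i - p) = 0 := by
    have h4 : ∑ i ∈ t, w i * inner ℝ (a - p) (z i - p) =
        inner ℝ (a - p) (∑ i ∈ t, w i • (z i - p)) := by
      rw [inner_sum]
      refine Finset.sum_congr rfl fun i _ => ?_
      rw [inner_smul_right]
    rw [h4]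
    have h5 : ∑ i ∈ t, w i • (z i - p) = 0 := by
      simp_rw [smul_sub]
      rw [Finset.sum_sub_distrib, hc, ← Finset.sum_smul, hw1, one_smul, sub_self]
    rw [h5, inner_zero_right]
  rw [h3, mul_zero, sub_zero] at h2
  exact h2

/-- first order condition at a maximum point, in the direction `v` -/
theorem first_order (hX : IsClosed X) (hne : X.Nonempty) {δ : ℝ}
    {a : EuclideanSpace ℝ (Fin n)}
    (hmax : ∀ b, infDist b X ^ 2 - (1 + δ) * ‖b - p‖ ^ 2 ≤
      infDist a X ^ 2 - (1 + δ) * ‖a - p‖ ^ 2)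
    (v : EuclideanSpace ℝ (Fin n)) {η : ℝ} (hη : 0 < η) (hδ : 0 ≤ δ) :
    ∃ x, x ∈ nearest X a ∧ -η ≤ inner ℝ v (x - (p - δ • (a - p))) := by
  by_contra hcon
  push Not at hcon
  set q := p - δ • (a - p) with hq
  -- the far part of X
  set S : Set (EuclideanSpace ℝ (Fin n)) :=
    {x | x ∈ X ∧ -(η / 2) ≤ inner ℝ v (x - q)} with hS
  have hSc : IsClosed S := by
    apply hX.inter
    have hc1 : Continuous fun x : EuclideanSpace ℝ (Fin n) => inner ℝ v (x - q) :=
      continuous_const.inner (continuous_id.sub continuous_const)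
    exact isClosed_le continuous_const hc1
  -- distance to S is bigger
  have hρ : ∃ ρ > 0, ∀ x ∈ S, infDist a X + ρ ≤ dist a x := by
    by_cases hSne : S.Nonempty
    · obtain ⟨y, hy, hye⟩ := hSc.exists_infDist_eq_dist hSne a
      have h1 : infDist a X ≤ dist a y := infDist_le_dist_of_mem hy.1
      have h2 : infDist a X ≠ dist a y := by
        intro h
        have := hcon y ⟨hy.1, h.symm⟩
        have h3 := hy.2
        linarith
      have h3 : infDist a X < dist a y := lt_of_le_of_ne h1 h2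
      refine ⟨dist a y - infDist a X, by linarith, fun x hx => ?_⟩
      have := infDist_le_dist_of_mem (x := a) hx
      linarith
    · refine ⟨1, one_pos, fun x hx => absurd ⟨x, hx⟩ hSne⟩
  obtain ⟨ρ, hρ0, hρ⟩ := hρ
  -- small step
  set N := ‖v‖ with hN
  have hN0 : 0 ≤ N := norm_nonneg v
  obtain ⟨t, ht0, ht1, ht2⟩ : ∃ t : ℝ, 0 < t ∧ 2 * (t * N) < ρ ∧ δ * t * N ^ 2 < η / 2 := by
    have hl1 : Tendsto (fun t : ℝ => 2 * (t * N)) (𝓝[>] 0) (𝓝 (2 * (0 * N))) := by
      apply Tendsto.mono_left _ nhdsWithin_le_nhds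
      exact (Continuous.tendsto (by fun_prop) 0)
    have hl2 : Tendsto (fun t : ℝ => δ * t * N ^ 2) (𝓝[>] 0) (𝓝 (δ * 0 * N ^ 2)) := by
      apply Tendsto.mono_left _ nhdsWithin_le_nhds
      exact (Continuous.tendsto (by fun_prop) 0)
    have e1 := hl1.eventually (eventually_lt_nhds (b := ρ) (by simpa using hρ0))
    have e2 := hl2.eventually (eventually_lt_nhds (b := η / 2) (by simpa using hη))
    obtain ⟨t, h1, h2, h3⟩ := (e1.and (e2.and self_mem_nhdsWithin)).exists
    exact ⟨t, h3, h1, h2⟩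
  obtain ⟨x, hxX, hxe⟩ := hX.exists_infDist_eq_dist hne (a + t • v)
  have hxS : inner ℝ v (x - q) < -(η / 2) := by
    by_contra h
    push Not at h
    have h1 := hρ x ⟨hxX, h⟩
    have h2 : dist a x ≤ dist a (a + t • v) + dist (a + t • v) x := dist_triangle _ _ _
    have h3 : dist a (a + t • v) = t * N := by
      rw [dist_eq_norm, sub_add_cancel_left, norm_neg, norm_smul, Real.norm_eq_abs,
        abs_of_pos ht0]
    have h4 : infDist (a + t • v) X ≤ infDist a X + dist (a + t • v) a := infDist_le_infDist_add_dist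
    rw [dist_comm, h3] at h4
    rw [h3, ← hxe] at h2
    linarith
  have hm := hmax (a + t • v)
  have h1 : infDist a X ^ 2 ≤ dist a x ^ 2 := by
    have h2 := infDist_le_dist_of_mem (x := a) hxX
    have := infDist_nonneg (x := a) (s := X)
    gcongr
  rw [hxe, dist_eq_norm] at hm
  rw [dist_eq_norm] at h1
  have e1 : ‖a + t • v - x‖ ^ 2 = ‖a - x‖ ^ 2 + 2 * (t * inner ℝ (a - x) v) + t ^ 2 * N ^ 2 := by
    have : a + t • v - x = (a - x) + t • v := by abel
    rw [this, norm_add_sq_real, inner_smul_right, norm_smul, mul_pow, Real.norm_eq_abs, sq_abs]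
  have e2 : ‖a + t • v - p‖ ^ 2 = ‖a - p‖ ^ 2 + 2 * (t * inner ℝ (a - p) v) + t ^ 2 * N ^ 2 := by
    have : a + t • v - p = (a - p) + t • v := by abel
    rw [this, norm_add_sq_real, inner_smul_right, norm_smul, mul_pow, Real.norm_eq_abs, sq_abs]
  rw [e1, e2] at hm
  have e3 : inner ℝ v (x - q) = -(inner ℝ (a - x) v) + (1 + δ) * inner ℝ (a - p) v := by
    have : x - q = -(a - x) + (1 + δ) • (a - p) := by
      rw [hq, add_smul, one_smul]; abel
    rw [this, inner_add_right, inner_neg_right, inner_smul_right, real_inner_comm,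
      real_inner_comm (a - p) v]
  have h5 : -(2 * t * inner ℝ v (x - q)) ≤ δ * t ^ 2 * N ^ 2 := by
    rw [e3]
    nlinarith
  have h6 : t * η < t * (δ * t * N ^ 2) := by
    have : 2 * t * inner ℝ v (x - q) < 2 * t * (-(η / 2)) :=
      mul_lt_mul_of_pos_left hxS (by linarith)
    nlinarith
  have h7 : η < δ * t * N ^ 2 := lt_of_mul_lt_mul_left h6 ht0.le
  linarith

theorem result (n : ℕ) (X : Set (EuclideanSpace ℝ (Fin n))) (hX : IsClosed X) (hne : X.Nonempty)
    (l : ℝ) (hl : 0 < l) (p : EuclideanSpace ℝ (Fin n)) (hp : p ∈ convexHull ℝ X)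
    (hd : l < infDist p X) : Reconstructible X l p := by
  obtain ⟨B, hB⟩ := phi_bdd hp
  set φ : EuclideanSpace ℝ (Fin n) → ℝ := fun a => infDist a X ^ 2 - ‖a - p‖ ^ 2 with hφ
  have hbdd : BddAbove (range φ) := ⟨B, by rintro _ ⟨a, rfl⟩; exact hB a⟩
  set S := sSup (range φ) with hS
  have hle : ∀ a, φ a ≤ S := fun a => le_csSup hbdd ⟨a, rfl⟩
  have hp0 : φ p = infDist p X ^ 2 := by simp [hφ]
  have hlp : l ^ 2 < infDist p X ^ 2 := by
    have := infDist_nonneg (x := p) (s := X)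
    nlinarith
  set ε := (infDist p X ^ 2 - l ^ 2) / 8 with hε
  have hε0 : 0 < ε := by rw [hε]; linarith
  obtain ⟨_, ⟨a0, rfl⟩, ha0⟩ := exists_lt_of_lt_csSup (range_nonempty φ)
    (show S - ε < sSup (range φ) by linarith)
  set δ := min 1 (ε / (‖a0 - p‖ ^ 2 + 1)) with hδ
  have hδ0 : 0 < δ := lt_min one_pos (by positivity)
  have hδ1 : δ ≤ 1 := min_le_left _ _
  have hδ2 : δ * ‖a0 - p‖ ^ 2 ≤ ε := by
    have h1 : δ ≤ ε / (‖a0 - p‖ ^ 2 + 1) := min_le_right _ _
    have h2 : 0 ≤ ‖a0 - p‖ ^ 2 := sq_nonneg _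
    calc δ * ‖a0 - p‖ ^ 2 ≤ ε / (‖a0 - p‖ ^ 2 + 1) * (‖a0 - p‖ ^ 2 + 1) := by
          apply mul_le_mul h1 (by linarith) h2 (by positivity)
      _ = ε := by field_simp
  -- maximum of ψ
  set ψ : EuclideanSpace ℝ (Fin n) → ℝ := fun a => infDist a X ^ 2 - (1 + δ) * ‖a - p‖ ^ 2
    with hψ
  have hψφ : ∀ a, ψ a = φ a - δ * ‖a - p‖ ^ 2 := by intro a; simp only [hψ, hφ]; ring
  have hψc : Continuous ψ := by
    have := continuous_infDist_pt (s := X)
    simp only [hψ]; fun_prop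
  obtain ⟨a, ha⟩ : ∃ a, ∀ b, ψ b ≤ ψ a := by
    set R := Real.sqrt ((|B| + |ψ p|) / δ) + 1 with hR
    have hR0 : 0 ≤ R := by positivity
    obtain ⟨a, haR, hamax⟩ := (isCompact_closedBall p R).exists_isMaxOn
      ⟨p, mem_closedBall_self hR0⟩ hψc.continuousOn
    refine ⟨a, fun b => ?_⟩
    by_cases hb : b ∈ closedBall p R
    · exact hamax hb
    · rw [mem_closedBall, not_le, dist_eq_norm] at hb
      have h1 : ψ b ≤ ψ p := by
        rw [hψφ b]
        have h2 := hB b
        have h3 : (|B| + |ψ p|) / δ ≤ ‖b - p‖ ^ 2 := by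
          have h4 : Real.sqrt ((|B| + |ψ p|) / δ) ≤ ‖b - p‖ := by linarith
          have h5 := Real.sq_sqrt (show 0 ≤ (|B| + |ψ p|) / δ by positivity)
          rw [← h5]
          gcongr
        rw [div_le_iff₀ hδ0] at h3
        have h6 := le_abs_self B
        have h7 := neg_abs_le (ψ p)
        simp only [hφ]
        linarith
      exact h1.trans (hamax (mem_closedBall_self hR0))
  have ha1 : S - 2 * ε ≤ ψ a := by
    have := ha a0
    rw [hψφ a0] at this
    linarith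
  have ha2 : δ * ‖a - p‖ ^ 2 ≤ 2 * ε := by
    have h1 := hψφ a
    have h2 := hle a
    linarith
  have hpS : infDist p X ^ 2 ≤ S := by rw [← hp0]; exact hle p
  -- the point q
  set q := p - δ • (a - p) with hq
  have hqa : ‖q - a‖ ^ 2 = (1 + δ) ^ 2 * ‖a - p‖ ^ 2 := by
    have : q - a = -((1 + δ) • (a - p)) := by rw [hq, add_smul, one_smul]; abel
    rw [this, norm_neg, norm_smul, mul_pow, Real.norm_eq_abs, sq_abs]
  have hbig : l ^ 2 < infDist a X ^ 2 - ‖q - a‖ ^ 2 := by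
    rw [hqa]
    have h1 : infDist a X ^ 2 - (1 + δ) ^ 2 * ‖a - p‖ ^ 2 =
      ψ a - (1 + δ) * (δ * ‖a - p‖ ^ 2) := by simp only [hψ]; ring
    rw [h1]
    have h2 : (1 + δ) * (δ * ‖a - p‖ ^ 2) ≤ 2 * (2 * ε) := by
      apply mul_le_mul (by linarith) ha2 (by positivity) (by norm_num)
    have h3 : l ^ 2 = infDist p X ^ 2 - 8 * ε := by rw [hε]; ring
    linarith
  -- no small ball contains the nearest points
  have hball : ∀ c, ¬ nearest X a ⊆ closedBall c l := by
    intro c hc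
    set η := infDist a X ^ 2 - ‖q - a‖ ^ 2 - l ^ 2 with hη
    have hη0 : 0 < η := by rw [hη]; linarith
    obtain ⟨x, hx, hxv⟩ := first_order hX hne (p := p) (δ := δ) ha (a - c) (η := η / 4)
      (by linarith) hδ0.le
    rw [← hq] at hxv
    have h1 : ‖x - c‖ ^ 2 ≤ l ^ 2 := by
      have := hc hx
      rw [mem_closedBall, dist_eq_norm] at this
      gcongr
    have h2 : ‖x - a‖ ^ 2 = infDist a X ^ 2 := by
      rw [← hx.2, dist_comm, dist_eq_norm]
    have h3 : ‖x - c‖ ^ 2 - ‖x - a‖ ^ 2 - (‖q - c‖ ^ 2 - ‖q - a‖ ^ 2) =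
        2 * inner ℝ (a - c) (x - q) := by
      have e1 : x - c = (x - a) + (a - c) := by abel
      have e2 : q - c = (q - a) + (a - c) := by abel
      rw [e1, e2, norm_add_sq_real, norm_add_sq_real]
      have e3 : x - q = (x - a) - (q - a) := by abel
      rw [e3, inner_sub_right (a - c) (x - a) (q - a), real_inner_comm (x - a) (a - c),
        real_inner_comm (q - a) (a - c)]
      ring
    have h4 : 0 ≤ ‖q - c‖ ^ 2 := sq_nonneg _
    linarith
  refine ⟨a, ⟨?_, hball⟩, ?_⟩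
  · by_contra hnt
    rw [not_nontrivial_iff] at hnt
    obtain ⟨x, hx, hxe⟩ := hX.exists_infDist_eq_dist hne a
    apply hball x
    intro y hy
    have : y = x := hnt hy ⟨hx, hxe.symm⟩
    rw [this]
    exact mem_closedBall_self hl.le
  · rw [mem_ball, dist_eq_norm, norm_sub_rev]
    have h1 : 0 < infDist a X ^ 2 - ‖a - p‖ ^ 2 := by
      have h2 : ψ a ≤ infDist a X ^ 2 - ‖a - p‖ ^ 2 := by
        simp only [hψ]
        have : 0 ≤ δ * ‖a - p‖ ^ 2 := by positivity
        linarith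
      have h3 : 0 < l ^ 2 := by positivity
      have h4 : l ^ 2 = infDist p X ^ 2 - 8 * ε := by rw [hε]; ring
      linarith
    exact lt_of_pow_lt_pow_left₀ 2 infDist_nonneg (by linarith)

end Pool.Agent.Results.MP_15b8d6_gt.LambdaReconstructible
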